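import Mathlib
import Pool.Graph.R_seed8.H652.SR.Main

/-!
# The special rank of torsion-free locally soluble groups is the Hirsch number
-/

set_option autoImplicit false

namespace Pool.Agent.KS6_21.SRK

open Pool.Agent.H652.SR

variable {G : Type} [Group G]

/-- Every finitely generated subgroup is soluble. -/
def LocSol (G : Type) [Group G] : Prop := ∀ K : Subgroup G, K.FG → Group.IsSolvable K

/-- Every finitely generated subgroup of `H` is generated by at most `r` elements. -/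
def RankLE (H : Subgroup G) (r : ℕ) : Prop :=
  ∀ K : Subgroup G, K ≤ H → K.FG → ∃ s : Finset G, s.card ≤ r ∧ Subgroup.closure (s : Set G) = K

/-- Every finite chain of subgroups of `H`, each normal in the next, has at most `r` non torsion
steps. -/
def HirschLE (H : Subgroup G) (r : ℕ) : Prop :=
  ∀ (m : ℕ) (L : ℕ → Subgroup G), (∀ i ≤ m, L i ≤ H) →
    (∀ i < m, L i ≤ L (i + 1) ∧ ∀ x ∈ L i, ∀ g ∈ L (i + 1), g * x * g⁻¹ ∈ L i) →
    ∀ s : Finset ℕ, (∀ i ∈ s, i < m ∧ ∃ g ∈ L (i + 1), ∀ k : ℕ, 0 < k → g ^ k ∉ L i) → s.card ≤ r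

theorem tf_sub (htf : ∀ g : G, IsOfFinOrder g → g = 1) (K : Subgroup G) : TF K := fun g hg =>
  Subtype.ext (htf (g : G) ((Submonoid.isOfFinOrder_coe (H := K.toSubmonoid)).2 hg))

theorem hirsch_of_rank (hG : LocSol G) (htf : ∀ g : G, IsOfFinOrder g → g = 1) (H : Subgroup G)
    (r : ℕ) (h : RankLE H r) : HirschLE H r := by
  classical
  intro m L hLH hL s hs
  have hg : ∀ i, ∃ g : G, i ∈ s → g ∈ L (i + 1) ∧ ∀ k : ℕ, 0 < k → g ^ k ∉ L i := by
    intro i
    by_cases hi : i ∈ s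
    · obtain ⟨g, h1, h2⟩ := (hs i hi).2
      exact ⟨g, fun _ => ⟨h1, h2⟩⟩
    · exact ⟨1, fun h => absurd h hi⟩
  choose g hg using hg
  let K : Subgroup G := Subgroup.closure ((s.image g : Finset G) : Set G)
  have hgK : ∀ i ∈ s, g i ∈ K := fun i hi =>
    Subgroup.subset_closure (by simpa using ⟨i, hi, rfl⟩)
  have hKfg : K.FG := ⟨s.image g, rfl⟩
  have hKH : K ≤ H := by
    rw [Subgroup.closure_le]
    intro x hx
    rw [Finset.mem_coe, Finset.mem_image] at hx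
    obtain ⟨i, hi, rfl⟩ := hx
    exact hLH (i + 1) (hs i hi).1 (hg i hi).1
  have hB : SHB K r := by
    refine claimB K (hG K hKfg) (tf_sub htf K) r fun K' hK' => ?_
    obtain ⟨S, hS1, hS2⟩ := h (K'.map K.subtype) (by
      rintro _ ⟨y, _, rfl⟩
      exact hKH y.2) (by
        obtain ⟨T, hT⟩ := hK'
        refine ⟨T.image K.subtype, ?_⟩
        rw [Finset.coe_image, ← MonoidHom.map_closure, hT])
    have h1 := ngen_of_finset (K'.map K.subtype) r S hS1 hS2
    exact h1.of_surjective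
      (K'.equivMapOfInjective K.subtype K.subtype_injective).symm.toMonoidHom
      (K'.equivMapOfInjective K.subtype K.subtype_injective).symm.surjective
  refine hB _ ⟨m, fun i => (L i).subgroupOf K, fun i hi => ⟨?_, ?_⟩, s, fun i hi => ⟨(hs i hi).1,
    ⟨⟨g i, hgK i hi⟩, (hg i hi).1, fun k hk hmem => ?_⟩⟩, rfl⟩
  · intro x hx
    exact (hL i hi).1 hx
  · intro x hx y hy
    exact (hL i hi).2 x hx y hy
  · exact (hg i hi).2 k hk hmem

theorem rank_of_hirsch (hG : LocSol G) (htf : ∀ g : G, IsOfFinOrder g → g = 1) (H : Subgroup G)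
    (r : ℕ) (h : HirschLE H r) : RankLE H r := by
  intro K hKH hK
  apply finset_of_ngen
  refine thmA r K ((Group.fg_iff_subgroup_fg K).2 hK) (hG K hK) (tf_sub htf K) ?_
  rintro n ⟨m, L, hL, s, hs, rfl⟩
  refine h m (fun i => (L i).map K.subtype) ?_ (fun i hi => ⟨?_, ?_⟩) s fun i hi => ⟨(hs i hi).1, ?_⟩
  · rintro i _ _ ⟨y, _, rfl⟩
    exact hKH y.2
  · exact Subgroup.map_mono (hL i hi).1
  · rintro _ ⟨x, hx, rfl⟩ _ ⟨y, hy, rfl⟩
    exact ⟨y * x * y⁻¹, (hL i hi).2 x hx y hy, by simp⟩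
  · obtain ⟨g, h1, h2⟩ := (hs i hi).2
    refine ⟨K.subtype g, ⟨g, h1, rfl⟩, fun k hk => ?_⟩
    rintro ⟨y, hy, hyk⟩
    apply h2 k hk
    have : y = g ^ k := K.subtype_injective (by rw [hyk, map_pow])
    rw [← this]
    exact hy

/-- Hirsch numbers and subgroups which contain a positive power of every element. -/
theorem hirsch_of_power {H H' : Subgroup G} (hp : ∀ g ∈ H', ∃ k : ℕ, 0 < k ∧ g ^ k ∈ H) (r : ℕ)
    (h : HirschLE H r) : HirschLE H' r := by
  intro m L hLH hL s hs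
  refine h m (fun i => L i ⊓ H) (fun i _ => inf_le_right) (fun i hi => ⟨?_, ?_⟩) s
    fun i hi => ⟨(hs i hi).1, ?_⟩
  · exact inf_le_inf_right H (hL i hi).1
  · rintro x ⟨hx, hxH⟩ g ⟨hg, hgH⟩
    exact ⟨(hL i hi).2 x hx g hg, H.mul_mem (H.mul_mem hgH hxH) (H.inv_mem hgH)⟩
  · obtain ⟨g, h1, h2⟩ := (hs i hi).2
    obtain ⟨k, hk, hgk⟩ := hp g (hLH (i + 1) (hs i hi).1 h1)
    refine ⟨g ^ k, ⟨(L (i + 1)).pow_mem h1 k, hgk⟩, fun j hj => ?_⟩
    rintro ⟨h3, -⟩
    rw [← pow_mul] at h3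
    exact h2 (k * j) (Nat.mul_pos hk hj) h3

theorem rank_mono {H H' : Subgroup G} (hle : H ≤ H') (r : ℕ) (h : RankLE H' r) : RankLE H r :=
  fun K hK hfg => h K (hK.trans hle) hfg

theorem pow_of_index {H : Subgroup G} (hH : H.index ≠ 0) (g : G) : ∃ k : ℕ, 0 < k ∧ g ^ k ∈ H := by
  obtain ⟨k, hk, -, h⟩ := Subgroup.exists_pow_mem_of_index_ne_zero hH g
  exact ⟨k, hk, h⟩

end Pool.Agent.KS6_21.SRK
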